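import Pool.Agent.Helper98.DISC.GoalsA

/-! Packet T1 (helper98, project DISC): the Toda equation for the series `S(z)`. -/

open Set Filter
open scoped Nat

noncomputable section

namespace Pool.Agent.Helper50.DISC

open Pool.Agent.Helper98.DISC PowerSeries

theorem coeff_th (f : PowerSeries ℂ) (n : ℕ) : coeff n (th f) = n * coeff n f := by
  unfold th
  cases n with
  | zero => simp
  | succ n =>
    rw [coeff_succ_X_mul, coeff_derivative]
    push_cast
    ring

theorem th_mul (f g : PowerSeries ℂ) : th (f * g) = th f * g + f * th g := by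
  unfold th
  rw [Derivation.leibniz]
  simp only [smul_eq_mul]
  ring

theorem th_add (f g : PowerSeries ℂ) : th (f + g) = th f + th g := by
  unfold th
  rw [map_add]; ring

theorem th_X_pow (e : ℕ) : th (X ^ e : PowerSeries ℂ) = (e : PowerSeries ℂ) * X ^ e := by
  ext n
  rw [coeff_th]
  have : (e : PowerSeries ℂ) = C (e : ℂ) := by simp
  rw [this, coeff_C_mul, coeff_X_pow]
  split_ifs with h
  · subst h; ring
  · ring

theorem th_natCast_mul (e : ℕ) (f : PowerSeries ℂ) :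
    th ((e : PowerSeries ℂ) * f) = (e : PowerSeries ℂ) * th f := by
  ext n
  have : (e : PowerSeries ℂ) = C (e : ℂ) := by simp
  rw [coeff_th, this, coeff_C_mul, coeff_C_mul, coeff_th]
  ring

theorem toda_shift (e : ℕ) (A : PowerSeries ℂ) :
    (X ^ e * A) * th (th (X ^ e * A)) - th (X ^ e * A) ^ 2 =
      X ^ (2 * e) * (A * th (th A) - th A ^ 2) := by
  have h1 : th (X ^ e * A) = X ^ e * ((e : PowerSeries ℂ) * A + th A) := by
    rw [th_mul, th_X_pow]; ring
  have h2 : th (th (X ^ e * A)) =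
      X ^ e * ((e : PowerSeries ℂ) * ((e : PowerSeries ℂ) * A + th A) +
        ((e : PowerSeries ℂ) * th A + th (th A))) := by
    rw [h1, th_mul, th_X_pow, th_add, th_natCast_mul]; ring
  rw [h2, h1]
  ring

/-- agreement up to order `k` -/
def Ag (k : ℕ) (A B : PowerSeries ℂ) : Prop := ∀ j ≤ k, coeff j A = coeff j B

theorem Ag.mul {k : ℕ} {A B A' B' : PowerSeries ℂ} (h : Ag k A B) (h' : Ag k A' B') :
    Ag k (A * A') (B * B') := by
  intro j hj
  rw [coeff_mul, coeff_mul]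
  refine Finset.sum_congr rfl fun p hp => ?_
  have hp' := Finset.HasAntidiagonal.mem_antidiagonal.1 hp
  rw [h p.1 (by omega), h' p.2 (by omega)]

theorem Ag.th {k : ℕ} {A B : PowerSeries ℂ} (h : Ag k A B) : Ag k (th A) (th B) := by
  intro j hj
  rw [coeff_th, coeff_th, h j hj]

theorem Ag.sub {k : ℕ} {A B A' B' : PowerSeries ℂ} (h : Ag k A B) (h' : Ag k A' B') :
    Ag k (A - A') (B - B') := by
  intro j hj
  rw [map_sub, map_sub, h j hj, h' j hj]

theorem Ag.pow2 {k : ℕ} {A B : PowerSeries ℂ} (h : Ag k A B) : Ag k (A ^ 2) (B ^ 2) := by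
  rw [pow_two, pow_two]; exact h.mul h

/-- the constant `κ_N` for `b` -/
def kN (b : ℂ) (N : ℕ) : ℂ := (∏ i ∈ Finset.range N, ∏ j ∈ Finset.range i, (b + j))⁻¹

theorem main (h2 : S_PN) (z : ℂ) (hz : ∀ m : ℤ, z ≠ m) (N : ℕ) :
    ∃ A : PowerSeries ℂ, Wd (PowerSeries.mk (wl (z - N + 1))) N = X ^ (N * (N - 1) / 2) * A ∧
      Ag N A (C (kN (z - N + 1) N) * Sz z) := by
  obtain ⟨h0, h1⟩ := h2 z hz N
  have hd : (X : PowerSeries ℂ) ^ (N * (N - 1) / 2) ∣ Wd (PowerSeries.mk (wl (z - N + 1))) N := by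
    rw [X_pow_dvd_iff]; exact h0
  obtain ⟨A, hA⟩ := hd
  refine ⟨A, hA, ?_⟩
  intro j hj
  have := h1 j hj
  rw [hA, coeff_X_pow_mul] at this
  rw [this, coeff_C_mul, Sz, coeff_mk]
  rfl

theorem kN_ne (b : ℂ) (hb : ∀ j : ℕ, b + j ≠ 0) (N : ℕ) : kN b N ≠ 0 := by
  unfold kN
  refine inv_ne_zero ?_
  exact Finset.prod_ne_zero_iff.2 fun i _ => Finset.prod_ne_zero_iff.2 fun j _ => hb j

theorem kN_succ (b : ℂ) (hb : ∀ j : ℕ, b + j ≠ 0) (N : ℕ) :
    kN b (N + 2) * kN b N * (b + N) = kN b (N + 1) ^ 2 := by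
  have h1 : kN b (N + 1) = kN b N * (∏ j ∈ Finset.range N, (b + j))⁻¹ := by
    unfold kN; rw [Finset.prod_range_succ, mul_inv]
  have h2 : kN b (N + 2) = kN b (N + 1) * (∏ j ∈ Finset.range (N + 1), (b + j))⁻¹ := by
    unfold kN; rw [Finset.prod_range_succ _ (N + 1), mul_inv]
  rw [h2, h1, Finset.prod_range_succ, mul_inv]
  have h3 := hb N
  field_simp

/-- T1 -/
theorem t1 (hW : S_WT) (hP : S_PN) : S_T1 := by
  intro z hz
  ext k
  -- N = k + 1, b = z - N + 1 = z - k
  set b : ℂ := z - (k + 1 : ℕ) + 1 with hb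
  have hbj : ∀ j : ℕ, b + j ≠ 0 := by
    intro j h
    apply hz ((k : ℤ) - j)
    push_cast
    rw [hb] at h
    push_cast at h
    linear_combination h
  have hzp : ∀ m : ℤ, z + 1 ≠ m := by
    intro m h
    apply hz (m - 1)
    push_cast
    linear_combination h
  have hzm : ∀ m : ℤ, z - 1 ≠ m := by
    intro m h
    apply hz (m + 1)
    push_cast
    linear_combination h
  obtain ⟨A, hA, hA'⟩ := main hP z hz (k + 1)
  obtain ⟨B, hB, hB'⟩ := main hP (z + 1) hzp (k + 2)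
  obtain ⟨D, hD, hD'⟩ := main hP (z - 1) hzm k
  have eb1 : z + 1 - ((k + 2 : ℕ) : ℂ) + 1 = b := by rw [hb]; push_cast; ring
  have eb2 : z - 1 - (k : ℂ) + 1 = b := by rw [hb]; push_cast; ring
  rw [← hb] at hA hA'
  rw [eb1] at hB hB'
  rw [eb2] at hD hD'
  have hT := hW (PowerSeries.mk (wl b)) (k + 1) (by omega)
  rw [show k + 1 + 1 = k + 2 from rfl, show k + 1 - 1 = k from rfl, hA, hB, hD, toda_shift] at hT
  have he : (k + 2) * (k + 2 - 1) / 2 + k * (k - 1) / 2 = 2 * ((k + 1) * (k + 1 - 1) / 2) + 1 := by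
    have t1 : ∀ n : ℕ, n * (n - 1) / 2 = n.choose 2 := fun n => (Nat.choose_two_right n).symm
    rw [t1, t1, t1]
    have a1 : (k + 2).choose 2 = (k + 1).choose 1 + (k + 1).choose 2 := Nat.choose_succ_succ' _ _
    have a2 : (k + 1).choose 2 = k.choose 1 + k.choose 2 := Nat.choose_succ_succ' _ _
    rw [Nat.choose_one_right] at a1 a2
    omega
  have hT2 : A * th (th A) - th A ^ 2 = X * (B * D) := by
    have hne : (X : PowerSeries ℂ) ^ (2 * ((k + 1) * (k + 1 - 1) / 2)) ≠ 0 :=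
      pow_ne_zero _ X_ne_zero
    refine mul_left_cancel₀ hne ?_
    rw [hT]
    calc X ^ ((k + 2) * (k + 2 - 1) / 2) * B * (X ^ (k * (k - 1) / 2) * D) =
        X ^ ((k + 2) * (k + 2 - 1) / 2 + k * (k - 1) / 2) * (B * D) := by rw [pow_add]; ring
      _ = _ := by rw [he, pow_succ]; ring
  have hA2 : Ag k A (C (kN b (k + 1)) * Sz z) := fun j hj => hA' j (by omega)
  have hL : Ag k (A * th (th A) - th A ^ 2)
      ((C (kN b (k + 1)) * Sz z) * th (th (C (kN b (k + 1)) * Sz z)) -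
        th (C (kN b (k + 1)) * Sz z) ^ 2) :=
    (hA2.mul hA2.th.th).sub hA2.th.pow2
  have thC : ∀ (c : ℂ) (f : PowerSeries ℂ), th (C c * f) = C c * th f := by
    intro c f
    ext n
    rw [coeff_th, coeff_C_mul, coeff_C_mul, coeff_th]; ring
  have hL2 : (C (kN b (k + 1)) * Sz z) * th (th (C (kN b (k + 1)) * Sz z)) -
        th (C (kN b (k + 1)) * Sz z) ^ 2 = C (kN b (k + 1) ^ 2) * (Sz z * th (th (Sz z)) - th (Sz z) ^ 2) := by
    rw [thC, thC, map_pow]; ring
  rw [hL2, hT2] at hL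
  have hLk := hL k le_rfl
  rw [coeff_C_mul] at hLk
  -- right side
  have hR : coeff k (X * (B * D)) = coeff k (X * ((C (kN b (k + 2)) * Sz (z + 1)) * (C (kN b k) * Sz (z - 1)))) := by
    cases k with
    | zero => simp
    | succ n =>
      rw [coeff_succ_X_mul, coeff_succ_X_mul]
      have q1 : Ag n B (C (kN b (n + 1 + 2)) * Sz (z + 1)) := fun j hj => hB' j (by omega)
      have q2 : Ag n D (C (kN b (n + 1)) * Sz (z - 1)) := fun j hj => hD' j (by omega)
      exact (q1.mul q2) n le_rfl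
  have hR2 : X * ((C (kN b (k + 2)) * Sz (z + 1)) * (C (kN b k) * Sz (z - 1))) =
      C (kN b (k + 2) * kN b k) * (X * Sz (z + 1) * Sz (z - 1)) := by
    rw [map_mul]; ring
  rw [hR, hR2, coeff_C_mul] at hLk
  have hk := kN_succ b hbj k
  have hkn := kN_ne b hbj (k + 1)
  have hz0 : z ≠ 0 := by have := hz 0; simpa using this
  have hbk : b + k = z := by rw [hb]; push_cast; ring
  rw [hbk] at hk
  have hfin : coeff k (Sz z * th (th (Sz z)) - th (Sz z) ^ 2) =
      z⁻¹ * coeff k (X * Sz (z + 1) * Sz (z - 1)) := by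
    have h5 : kN b (k + 1) ^ 2 ≠ 0 := pow_ne_zero _ hkn
    refine mul_left_cancel₀ h5 ?_
    rw [← hLk, ← hk]
    field_simp
  rw [hfin, ← coeff_C_mul]
  congr 1
  ring

end Pool.Agent.Helper50.DISC
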